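import Pool.Agent.Lib.helper22.CXEtrD
import Pool.Agent.Lib.lead.CXGraphRed

namespace Pool.Agent.H.MP_e14cd3_lc

open Pool.Agent.Lib.CX Pool.Agent.Lib.ER

abbrev Nm := ℕ × ℕ × ℕ

def vs (M : ℕ) : List Nm :=
  [(0, 0, 0), (0, 1, 0), (0, 2, 0)] ++ (List.range M).flatMap (fun v => [(1, v, 0), (2, v, 0), (3, v, 0), (4, v, 0)]) ++
    (List.range M ×ˢ List.range M).flatMap fun p => [(5, p.1, p.2), (6, p.1, p.2)]

def es (M : ℕ) (E : List Q4) : List (Nm × Nm) :=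
  [((0, 0, 0), (0, 1, 0)), ((0, 0, 0), (0, 2, 0)), ((0, 1, 0), (0, 2, 0))] ++
    (List.range M).flatMap (fun v => [((0, 1, 0), (1, v, 0)), ((0, 0, 0), (2, v, 0)), ((0, 2, 0), (3, v, 0)),
      ((0, 0, 0), (4, v, 0)), ((2, v, 0), (4, v, 0)), ((3, 0, 0), (5, v, v)), ((3, v, 0), (5, v, 0))]) ++
    (List.range M ×ˢ List.range M).flatMap (fun p => [((1, p.1, 0), (5, p.1, p.2)), ((2, p.2, 0), (5, p.1, p.2)),
      ((3, p.1, 0), (6, p.1, p.2)), ((4, p.2, 0), (6, p.1, p.2))]) ++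
    E.map fun e => ((5, e.1, e.2.2.1), (6, e.2.1, e.2.2.2))

theorem all_vs {M} (P : Nm → Prop) : (∀ v ∈ vs M, P v) ↔ (P (0, 0, 0) ∧ P (0, 1, 0) ∧ P (0, 2, 0)) ∧
    (∀ v < M, P (1, v, 0) ∧ P (2, v, 0) ∧ P (3, v, 0) ∧ P (4, v, 0)) ∧ ∀ a < M, ∀ c < M, P (5, a, c) ∧ P (6, a, c) := by
  simp only [vs, List.forall_mem_append, List.forall_mem_cons, List.forall_mem_flatMap, List.not_mem_nil, false_imp_iff,
    implies_true, and_true, List.mem_range, and_assoc, Prod.forall, List.mem_product, and_imp]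
  exact and_congr_right fun _ => and_congr_right fun _ => and_congr_right fun _ => and_congr_right fun _ =>
    ⟨fun h a ha c hc => h a c ha hc, fun h a c ha hc => h a ha c hc⟩

theorem all_es {M E} (P : Nm × Nm → Prop) : (∀ e ∈ es M E, P e) ↔
    (P ((0, 0, 0), (0, 1, 0)) ∧ P ((0, 0, 0), (0, 2, 0)) ∧ P ((0, 1, 0), (0, 2, 0))) ∧
    (∀ v < M, P ((0, 1, 0), (1, v, 0)) ∧ P ((0, 0, 0), (2, v, 0)) ∧ P ((0, 2, 0), (3, v, 0)) ∧
      P ((0, 0, 0), (4, v, 0)) ∧ P ((2, v, 0), (4, v, 0)) ∧ P ((3, 0, 0), (5, v, v)) ∧ P ((3, v, 0), (5, v, 0))) ∧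
    (∀ a < M, ∀ c < M, P ((1, a, 0), (5, a, c)) ∧ P ((2, c, 0), (5, a, c)) ∧ P ((3, a, 0), (6, a, c)) ∧
      P ((4, c, 0), (6, a, c))) ∧ ∀ e ∈ E, P ((5, e.1, e.2.2.1), (6, e.2.1, e.2.2.2)) := by
  simp only [es, List.forall_mem_append, List.forall_mem_cons, List.forall_mem_flatMap, List.not_mem_nil, false_imp_iff,
    implies_true, and_true, List.mem_range, and_assoc, List.forall_mem_map]
  refine and_congr_right fun _ => and_congr_right fun _ => and_congr_right fun _ => and_congr_right fun _ =>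
    and_congr_left fun _ => ⟨fun h a ha c hc => h (a, c) (by simp [ha, hc]), fun h ⟨a, c⟩ hp => ?_⟩
  simp at hp
  exact h a hp.1 c hp.2

theorem es_ok {M E} (h0 : 0 < M) (hE : ∀ e ∈ E, Q4.lt M e) : ∀ e ∈ es M E, e.1 ∈ vs M ∧ e.2 ∈ vs M ∧ e.1 ≠ e.2 := by
  obtain ⟨⟨a0, a1, a2⟩, b, c⟩ := (all_vs (M := M) (· ∈ vs M)).1 fun _ h => h
  rw [all_es]
  refine ⟨by simp [*], fun v hv => by simp [*], fun v hv w hw => by simp [*], fun e he => ?_⟩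
  obtain ⟨h1, h2, h3, h4⟩ := hE e he
  simp [*]

/-- the algebra behind the construction, in coordinates -/
theorem sound {M E} (h0 : 0 < M) (hE : ∀ e ∈ E, Q4.lt M e) (X Y Z : Nm → ℝ)
    (he : Y (0, 0, 0) = 0 ∧ Z (0, 0, 0) = 0 ∧ X (0, 1, 0) = 0 ∧ Z (0, 1, 0) = 0 ∧ X (0, 2, 0) = 0 ∧ Y (0, 2, 0) = 0)
    (hz : ∀ v ∈ vs M, ¬(X v = 0 ∧ Y v = 0 ∧ Z v = 0))
    (ho : ∀ e ∈ es M E, X e.1 * X e.2 + Y e.1 * Y e.2 + Z e.1 * Z e.2 = 0) (hA : ∀ v < M, X (1, v, 0) ≠ 0)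
    (hB : Y (2, 0, 0) ≠ 0 ∧ Z (2, 0, 0) ≠ 0) (hC : X (3, 0, 0) ≠ 0 ∧ Y (3, 0, 0) ≠ 0) :
    ∃ x : ℕ → ℝ, x 0 ≠ 0 ∧ ∀ e ∈ E, Q4.ok x e := by
  rw [all_vs] at hz
  rw [all_es] at ho
  obtain ⟨⟨z0, z1, z2⟩, z3, z4⟩ := hz
  obtain ⟨-, o1, o2, o3⟩ := ho
  obtain ⟨e1, e2, e3, e4, e5, e6⟩ := he
  simp only [e1, e2, e3, e4, e5, e6, and_true, true_and, zero_mul, add_zero, zero_add, mul_eq_zero, z0, z1, z2,
    false_or] at z0 z1 z2 o1
  simp only [z0, z1, z2, false_or] at o1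
  simp only at o2 o3
  have yB : ∀ v < M, Y (2, v, 0) ≠ 0 := fun v hv c => by
    obtain ⟨a1, a2, a3, a4, a5, a6, a7⟩ := o1 v hv
    obtain ⟨b1, b2, -⟩ := o2 v hv v hv
    have := hA v hv
    have := (z3 v hv).2.1
    have := (z4 v hv v hv).1
    have := (o1 0 h0).2.2.1
    grind
  have zP : ∀ a < M, ∀ c < M, Z (5, a, c) ≠ 0 := fun a ha c hc z => by
    obtain ⟨b1, b2, -⟩ := o2 a ha c hc
    have := hA a ha
    have := yB c hc
    have := (o1 a ha).1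
    have := (o1 c hc).2.1
    have := (z4 a ha c hc).1
    grind
  have xC : ∀ v < M, X (3, v, 0) ≠ 0 := fun v hv c => by
    obtain ⟨a1, a2, a3, a4, a5, a6, a7⟩ := o1 v hv
    obtain ⟨b1, b2, -⟩ := o2 v hv 0 h0
    have := zP v hv 0 h0
    have := (z3 v hv).2.2.1
    have := (o1 0 h0).2.1
    grind
  have zD : ∀ v < M, Z (4, v, 0) ≠ 0 := fun v hv c => by
    obtain ⟨a1, a2, a3, a4, a5, a6, a7⟩ := o1 v hv
    have := yB v hv
    have := (z3 v hv).2.2.2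
    grind
  have yQ : ∀ a < M, ∀ c < M, Y (6, a, c) ≠ 0 := fun a ha c hc z => by
    obtain ⟨-, -, b1, b2⟩ := o2 a ha c hc
    have := xC a ha
    have := zD c hc
    have := (o1 a ha).2.2.1
    have := (o1 c hc).2.2.2.1
    have := (z4 a ha c hc).2
    grind
  let α : ℕ → ℝ := fun v => -Z (1, v, 0) / X (1, v, 0)
  let β : ℕ → ℝ := fun v => -Z (2, v, 0) / Y (2, v, 0)
  let γ : ℕ → ℝ := fun v => -Y (3, v, 0) / X (3, v, 0)
  have P : ∀ a < M, ∀ c < M, X (5, a, c) = α a * Z (5, a, c) ∧ Y (5, a, c) = β c * Z (5, a, c) := fun a ha c hc => by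
    obtain ⟨b1, b2, -⟩ := o2 a ha c hc
    have := hA a ha
    have := yB c hc
    rw [(o1 a ha).1] at b1
    rw [(o1 c hc).2.1] at b2
    simp only [α, β]
    constructor <;> field_simp <;> linarith
  have Q : ∀ a < M, ∀ c < M, X (6, a, c) = γ a * Y (6, a, c) ∧ Z (6, a, c) = -β c * Y (6, a, c) := fun a ha c hc => by
    obtain ⟨-, -, b1, b2⟩ := o2 a ha c hc
    obtain ⟨a1, a2, a3, a4, a5, a6, a7⟩ := o1 c hc
    have := xC a ha
    have := yB c hc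
    have := zD c hc
    rw [(o1 a ha).2.2.1] at b1
    simp only [γ, β]
    refine ⟨by field_simp; linarith, mul_left_cancel₀ this ?_⟩
    field_simp
    grind
  have r1 : ∀ v < M, α v = γ 0 * β v ∧ α v = γ v * β 0 := fun v hv => by
    obtain ⟨a1, a2, a3, a4, a5, a6, a7⟩ := o1 v hv
    rw [(P v hv v hv).1, (P v hv v hv).2, (o1 0 h0).2.2.1] at a6
    rw [(P v hv 0 h0).1, (P v hv 0 h0).2, a3] at a7
    have := xC v hv
    have := hC.1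
    simp only [γ]
    exact ⟨mul_right_cancel₀ (zP v hv v hv) (by field_simp; linarith),
      mul_right_cancel₀ (zP v hv 0 h0) (by field_simp; linarith)⟩
  have g0 : γ 0 ≠ 0 := div_ne_zero (neg_ne_zero.2 hC.2) hC.1
  have b0 : β 0 ≠ 0 := div_ne_zero (neg_ne_zero.2 hB.2) hB.1
  refine ⟨fun v => γ 0 ^ 2 / β 0 * β v, by positivity, fun e he => ?_⟩
  obtain ⟨h1, h2, h3, h4⟩ := hE e he
  have := o3 e he
  rw [(P _ h1 _ h3).1, (P _ h1 _ h3).2, (Q _ h2 _ h4).1, (Q _ h2 _ h4).2, (r1 _ h1).1] at this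
  have k : γ 0 * β e.1 * γ e.2.1 + β e.2.2.1 - β e.2.2.2 = 0 :=
    mul_right_cancel₀ (mul_ne_zero (zP _ h1 _ h3) (yQ _ h2 _ h4)) (by linarith)
  have k2 := (r1 _ h2).1.symm.trans (r1 _ h2).2
  unfold Q4.ok
  field_simp
  linear_combination β 0 * k + γ 0 * β e.1 * k2

def cX (x : ℕ → ℝ) (v : Nm) : ℝ :=
  if v.1 = 0 then (if v.2.1 = 0 then 1 else 0) else if v.1 = 1 ∨ v.1 = 3 then 1 else if v.1 = 2 ∨ v.1 = 4 then 0 else x v.2.1
def cY (x : ℕ → ℝ) (v : Nm) : ℝ :=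
  if v.1 = 0 then (if v.2.1 = 1 then 1 else 0) else if v.1 = 1 then 0 else if v.1 = 2 ∨ v.1 = 6 then 1 else
    if v.1 = 3 then -x v.2.1 else if v.1 = 4 then x v.2.1 else x v.2.2
def cZ (x : ℕ → ℝ) (v : Nm) : ℝ :=
  if v.1 = 0 then (if v.2.1 = 2 then 1 else 0) else if v.1 = 1 ∨ v.1 = 2 then -x v.2.1 else if v.1 = 3 then 0 else
    if v.1 = 6 then -x v.2.2 else 1

theorem c_orth {M E x} (h0 : x 0 = 1) (h : ∀ e ∈ E, Q4.ok x e) :
    ∀ e ∈ es M E, cX x e.1 * cX x e.2 + cY x e.1 * cY x e.2 + cZ x e.1 * cZ x e.2 = 0 := by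
  rw [all_es]
  refine ⟨by simp [cX, cY, cZ], by simp [cX, cY, cZ, h0], by simp [cX, cY, cZ], fun e he => ?_⟩
  have := h e he
  simp [cX, cY, cZ, Q4.ok] at this ⊢
  linarith

theorem c_ne {M x} : ∀ v ∈ vs M, ¬(cX x v = 0 ∧ cY x v = 0 ∧ cZ x v = 0) := by
  rw [all_vs]; simp [cX, cY, cZ]

theorem c_dist {M x} (h0 : ∀ i < M, 0 < x i) (h : ∀ i < M, ∀ j < M, x i = x j → i = j) : ∀ u ∈ vs M, ∀ v ∈ vs M, ∀ c : ℝ,
    cX x u = c * cX x v → cY x u = c * cY x v → cZ x u = c * cZ x v → u = v := by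
  have p : ∀ i < M, x i ≠ 0 := fun i hi => (h0 i hi).ne'
  have q : ∀ i < M, ∀ j < M, x i * x j + 1 ≠ 0 := fun i hi j hj => by have := h0 i hi; have := h0 j hj; positivity
  simp only [all_vs, cX, cY, cZ]
  simp
  refine ⟨⟨?_, ?_, ?_⟩, fun v hv => ⟨?_, ?_, ?_, ?_⟩, fun a ha c hc => ⟨?_, ?_⟩⟩ <;> grind

theorem pars {d : ℕ} (e : Fin d → EuclideanSpace ℝ (Fin d)) (he : Orthonormal ℝ e) (p q : EuclideanSpace ℝ (Fin d)) :
    inner ℝ p q = ∑ i, inner ℝ (e i) p * inner ℝ (e i) q := by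
  rcases Nat.eq_zero_or_pos d with rfl | hd
  · simp [Subsingleton.elim p 0]
  have : Nonempty (Fin d) := ⟨⟨0, hd⟩⟩
  have := ((basisOfOrthonormalOfCardEqFinrank he (by simp)).toOrthonormalBasis (by simpa using he)).sum_inner_mul_inner p q
  simp only [Module.Basis.coe_toOrthonormalBasis, coe_basisOfOrthonormalOfCardEqFinrank] at this
  rw [← this]
  exact Finset.sum_congr rfl fun i _ => by rw [real_inner_comm]

end Pool.Agent.H.MP_e14cd3_lc
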